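import Pool.Agent.Y395.GX.Stm

/-!
# GX-FUB, GX-TOT: the expectation over a random subset of a disjoint union, and its total mass
-/

set_option autoImplicit false

namespace Pool.Agent.Y672.GX

open Finset Pool.Agent.Y395.GX

theorem ex_empty {α : Type} (p : ℝ) (f : Finset α → ℝ) : Ex p ∅ f = f ∅ := by
  simp [Ex]

theorem ex_insert {α : Type} [DecidableEq α] (p : ℝ) (B : Finset α) (a : α) (ha : a ∉ B)
    (f : Finset α → ℝ) :
    Ex p (insert a B) f = (1 - p) * Ex p B f + p * Ex p B (fun F => f (insert a F)) := by
  unfold Ex
  rw [Finset.sum_powerset_insert ha, Finset.mul_sum, Finset.mul_sum]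
  congr 1
  · refine sum_congr rfl fun F hF => ?_
    have hc : F.card ≤ B.card := card_le_card (mem_powerset.1 hF)
    rw [card_insert_of_notMem ha, Nat.sub_add_comm hc, pow_succ]
    ring
  · refine sum_congr rfl fun F hF => ?_
    have h : a ∉ F := fun h => ha (mem_powerset.1 hF h)
    rw [card_insert_of_notMem ha, card_insert_of_notMem h, Nat.add_sub_add_right, pow_succ]
    ring

theorem ex_lin {α : Type} (p x y : ℝ) (B : Finset α) (f g : Finset α → ℝ) :
    Ex p B (fun F => x * f F + y * g F) = x * Ex p B f + y * Ex p B g := by
  unfold Ex
  rw [Finset.mul_sum, Finset.mul_sum, ← sum_add_distrib]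
  exact sum_congr rfl fun F _ => by ring

theorem fub : SFub := by
  intro α _ p A B f hAB
  induction B using Finset.induction_on generalizing f with
  | empty => simp only [union_empty, ex_empty]
  | insert a B ha ih =>
    have hA : a ∉ A := fun h => (Finset.disjoint_left.1 hAB) h (mem_insert_self a B)
    have hAB' : Disjoint A B := hAB.mono_right (subset_insert a B)
    have hu : a ∉ A ∪ B := by
      rw [mem_union]
      exact fun h => h.elim hA ha
    rw [union_insert, ex_insert p _ a hu, ih f hAB', ih (fun F => f (insert a F)) hAB', ← ex_lin]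
    refine congrArg (Ex p A) (funext fun F₁ => ?_)
    rw [ex_insert p B a ha]
    simp only [union_insert]

theorem tot : STot := by
  classical
  intro α p E c
  induction E using Finset.induction_on with
  | empty => exact ex_empty p _
  | insert a B ha ih =>
    rw [ex_insert p B a ha, ih]
    ring

end Pool.Agent.Y672.GX
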